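import Pool.Agent.Helper83.BR.Sol

/-!
# Congruence conditions from quadratic reciprocity
-/

set_option autoImplicit false

namespace Pool.Agent.Helper83.BR

open Finset NumberTheorySymbols

theorem choose_par (t : ℕ) : t.choose 2 % 2 = if t % 4 ≤ 1 then 0 else 1 := by
  induction t with
  | zero => simp
  | succ t ih =>
    rw [Nat.choose_succ_succ' t 1, Nat.choose_one_right, Nat.add_mod, ih]
    split_ifs <;> omega

theorem neg_one_choose (t : ℕ) : (-1 : ℤ) ^ t.choose 2 = if t % 4 ≤ 1 then 1 else -1 := by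
  have h := choose_par t
  split_ifs at h ⊢ with h1
  · exact Even.neg_one_pow (Nat.even_iff.2 h)
  · exact Odd.neg_one_pow (Nat.odd_iff.2 h)

theorem chi_nat {m : ℕ} (h : m % 2 = 1) :
    (ZMod.χ₈ m : ℤ) = if m % 8 = 1 ∨ m % 8 = 7 then 1 else -1 := by
  rw [ZMod.χ₈_nat_eq_if_mod_eight, if_neg (by omega)]

theorem sq_odd4 {a : ℕ} (h : Odd a) : a ^ 2 % 4 = 1 := by
  obtain ⟨k, rfl⟩ := h
  have : (2 * k + 1) ^ 2 = 4 * (k ^ 2 + k) + 1 := by ring
  omega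

theorem sq_odd8 {a : ℕ} (h : Odd a) : a ^ 2 % 8 = 1 := by
  obtain ⟨k, rfl⟩ := h
  obtain ⟨j, hj⟩ := Nat.even_mul_succ_self k
  have : (2 * k + 1) ^ 2 = 4 * (k * (k + 1)) + 1 := by ring
  omega

theorem Sol.op {P Q : Finset ℕ} (h : Sol P Q) : OP ((P ∪ Q).erase 2) := by
  intro p hp
  have h1 := h.pS p (mem_of_mem_erase hp)
  exact ⟨h1, h1.odd_of_ne_two (ne_of_mem_erase hp)⟩

/-- the case without the prime `2` -/
theorem Sol.odd_case {P Q : Finset ℕ} (h : Sol P Q) (h2 : 2 ∉ P ∪ Q) :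
    n3 (P ∪ Q) % 4 ≤ 1 ∧ n1 (P ∪ Q) % 4 = n3 (P ∪ Q) % 4 + 2 := by
  have hO := h.op
  rw [erase_eq_of_notMem h2] at hO
  have hO' : ∀ p ∈ P ∪ Q, Odd p := fun p hp => (hO p hp).2
  have e1 := rec_prod _ hO
  rw [prod_eq_one fun p hp => h.jac hp, neg_one_choose] at e1
  have e2 : n3 (P ∪ Q) % 4 ≤ 1 := by
    by_contra h3
    rw [if_neg h3] at e1
    omega
  have e3 := dr_mod _ hO'
  rw [h.drS] at e3
  have a1 := sq_odd4 (prod_odd P fun p hp => hO' p (mem_union_left _ hp))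
  have a2 := sq_odd4 (prod_odd Q fun p hp => hO' p (mem_union_right _ hp))
  have e4 := prod_mod4 _ hO'
  refine ⟨e2, ?_⟩
  rw [Nat.add_mod, a1, a2, Nat.mul_mod, e4] at e3
  generalize n3 (P ∪ Q) = t at *
  generalize n1 (P ∪ Q) = u at *
  split_ifs at e3 <;> omega

theorem sum_sq_mod {P Q : Finset ℕ} (h : Sol P Q) (h2 : 2 ∈ P) :
    ((∏ q ∈ P, q) ^ 2 + (∏ q ∈ Q, q) ^ 2) % 8 = 5 := by
  have hQ2 : 2 ∉ Q := fun h1 => (disjoint_left.1 h.disj) h2 h1
  have hQ : Odd (∏ q ∈ Q, q) := prod_odd Q fun q hq =>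
    (h.pQ q hq).odd_of_ne_two fun h1 => hQ2 (h1 ▸ hq)
  have hP : Odd (∏ q ∈ P.erase 2, q) := prod_odd _ fun q hq =>
    (h.pP q (mem_of_mem_erase hq)).odd_of_ne_two (ne_of_mem_erase hq)
  have a1 := sq_odd8 hQ
  have a2 := sq_odd8 hP
  have a3 : (∏ q ∈ P, q) ^ 2 = 4 * (∏ q ∈ P.erase 2, q) ^ 2 := by
    rw [← mul_prod_erase P (fun q => q) h2]
    ring
  omega

/-- the case with the prime `2` -/
theorem Sol.even_case {P Q : Finset ℕ} (h : Sol P Q) (h2 : 2 ∈ P ∪ Q) :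
    n1 (P ∪ Q) % 4 = 2 := by
  have hO := h.op
  have hO' : ∀ p ∈ (P ∪ Q).erase 2, Odd p := fun p hp => (hO p hp).2
  have hm := prod_odd _ hO'
  have s0 : insert 2 ((P ∪ Q).erase 2) = P ∪ Q := insert_erase h2
  have n2 : 2 ∉ (P ∪ Q).erase 2 := notMem_erase 2 _
  have e5 : dr (P ∪ Q) % 8 = 5 := by
    rw [h.drS]
    rcases mem_union.1 h2 with h3 | h3
    · exact sum_sq_mod h h3
    · rw [add_comm]
      exact sum_sq_mod h.symm h3
  have e1 := rec_prod _ hO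
  have e6 : ∏ p ∈ (P ∪ Q).erase 2, J(((∏ q ∈ (P ∪ Q).erase p, q : ℕ) : ℤ) | p) = 1 :=
    prod_eq_one fun p hp => h.jac (mem_of_mem_erase hp)
  have e7 : ∏ p ∈ (P ∪ Q).erase 2, J(((∏ q ∈ (P ∪ Q).erase p, q : ℕ) : ℤ) | p) =
      J((2 : ℤ) | ∏ p ∈ (P ∪ Q).erase 2, p) * (-1) ^ (n3 ((P ∪ Q).erase 2)).choose 2 := by
    rw [← e1, ← jac_prod _ _ hO', ← prod_mul_distrib]
    refine prod_congr rfl fun p hp => ?_
    have := prod_erase_insert n2 hp
    rw [s0] at this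
    rw [this, Nat.cast_mul, jacobiSym.mul_left]
    rfl
  rw [e6, jacobiSym.at_two hm, chi_nat (Nat.odd_iff.1 hm), neg_one_choose] at e7
  have e3 := dr_mod _ hO'
  have e4 := prod_mod4 _ hO'
  have e8 : n1 (P ∪ Q) = n1 ((P ∪ Q).erase 2) := by
    have := n1_insert n2
    rw [s0] at this
    simpa using this
  rw [← s0, dr_insert n2] at e5
  rw [e8]
  generalize n3 ((P ∪ Q).erase 2) = t at *
  generalize n1 ((P ∪ Q).erase 2) = u at *
  generalize dr ((P ∪ Q).erase 2) = d at *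
  generalize ∏ p ∈ (P ∪ Q).erase 2, p = m at *
  rw [Nat.mul_mod, e4] at e3
  split_ifs at e7 e3 e4 <;> omega

theorem prod_mod3 (T : Finset ℕ) (h : ∀ p ∈ T, p.Prime ∧ p ≠ 3) :
    (∏ q ∈ T, q) % 3 = if (T.filter (fun p => p % 3 = 2)).card % 2 = 0 then 1 else 2 := by
  induction T using Finset.induction_on with
  | empty => simp
  | insert r T hr ih =>
    have h1 := ih fun p hp => h p (mem_insert_of_mem hp)
    have h2 := h r (mem_insert_self _ _)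
    have h3 : r % 3 ≠ 0 := fun h4 => by
      have := (Nat.prime_dvd_prime_iff_eq Nat.prime_three h2.1).1 (Nat.dvd_of_mod_eq_zero h4)
      exact h2.2 this.symm
    rw [prod_insert hr, filter_insert, Nat.mul_mod, h1]
    rcases (by omega : r % 3 = 1 ∨ r % 3 = 2) with h4 | h4
    · rw [h4, if_neg (by omega : ¬ (1 = 2))]
      split_ifs <;> omega
    · rw [h4, if_pos rfl, card_insert_of_notMem (by simp [hr])]
      split_ifs <;> omega

/-- the case with the prime `3` -/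
theorem Sol.three {P Q : Finset ℕ} (h : Sol P Q) (h3 : 3 ∈ P ∪ Q) :
    Even (((P ∪ Q).filter (fun p => p % 3 = 2)).card) := by
  obtain ⟨x, y, hx, hy⟩ := h.key' h3
  have e1 := prod_mod3 ((P ∪ Q).erase 3) fun p hp =>
    ⟨h.pS p (mem_of_mem_erase hp), ne_of_mem_erase hp⟩
  have e2 : ((P ∪ Q).erase 3).filter (fun p => p % 3 = 2) =
      (P ∪ Q).filter (fun p => p % 3 = 2) := by
    ext p
    simp only [mem_filter, mem_erase]
    constructor
    · rintro ⟨⟨-, h1⟩, h4⟩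
      exact ⟨h1, h4⟩
    · rintro ⟨h1, h4⟩
      exact ⟨⟨fun h5 => by rw [h5] at h4; omega, h1⟩, h4⟩
  rw [e2] at e1
  have e3 : y ^ 2 % 3 = 0 ∨ y ^ 2 % 3 = 1 := by
    rw [pow_two, Nat.mul_mod]
    rcases (by omega : y % 3 = 0 ∨ y % 3 = 1 ∨ y % 3 = 2) with h4 | h4 | h4 <;> rw [h4] <;> simp
  rw [Nat.even_iff]
  by_contra h6
  rw [if_neg h6] at e1
  omega

end Pool.Agent.Helper83.BR
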