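import Mathlib

/-!
# Reciprocity for products over sets of primes
-/

set_option autoImplicit false

namespace Pool.Agent.Helper83.BR

open Finset NumberTheorySymbols

/-- number of elements congruent to `3` modulo `4` -/
def n3 (T : Finset ℕ) : ℕ := (T.filter (fun p => p % 4 = 3)).card

/-- number of elements congruent to `1` modulo `4` -/
def n1 (T : Finset ℕ) : ℕ := (T.filter (fun p => p % 4 = 1)).card

/-- the arithmetic derivative of the product -/
def dr (S : Finset ℕ) : ℕ := ∑ p ∈ S, ∏ q ∈ S.erase p, q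

/-- all elements are odd primes -/
def OP (T : Finset ℕ) : Prop := ∀ p ∈ T, p.Prime ∧ Odd p

theorem n3_insert {r : ℕ} {T : Finset ℕ} (h : r ∉ T) :
    n3 (insert r T) = n3 T + if r % 4 = 3 then 1 else 0 := by
  unfold n3
  rw [filter_insert]
  split_ifs with h1
  · rw [card_insert_of_notMem (by simp [h])]
  · rfl

theorem n1_insert {r : ℕ} {T : Finset ℕ} (h : r ∉ T) :
    n1 (insert r T) = n1 T + if r % 4 = 1 then 1 else 0 := by
  unfold n1
  rw [filter_insert]
  split_ifs with h1
  · rw [card_insert_of_notMem (by simp [h])]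
  · rfl

theorem prod_erase_insert {r p : ℕ} {T : Finset ℕ} (h : r ∉ T) (hp : p ∈ T) :
    ∏ q ∈ (insert r T).erase p, q = r * ∏ q ∈ T.erase p, q := by
  have hrp : r ≠ p := fun h1 => h (h1 ▸ hp)
  rw [erase_insert_of_ne hrp, prod_insert (by simp [h])]

theorem dr_insert {r : ℕ} {T : Finset ℕ} (h : r ∉ T) :
    dr (insert r T) = ∏ q ∈ T, q + r * dr T := by
  unfold dr
  rw [sum_insert h, erase_insert h, mul_sum]
  congr 1
  exact sum_congr rfl fun p hp => prod_erase_insert h hp

theorem odd_mod {r : ℕ} (h : Odd r) : r % 4 = 1 ∨ r % 4 = 3 := by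
  obtain ⟨k, rfl⟩ := h
  omega

theorem prod_mod4 (T : Finset ℕ) (h : ∀ p ∈ T, Odd p) :
    (∏ q ∈ T, q) % 4 = if n3 T % 2 = 0 then 1 else 3 := by
  induction T using Finset.induction_on with
  | empty => simp [n3]
  | insert r T hr ih =>
    have h1 := ih fun p hp => h p (mem_insert_of_mem hp)
    have h2 := odd_mod (h r (mem_insert_self _ _))
    rw [prod_insert hr, n3_insert hr, Nat.mul_mod, h1]
    rcases h2 with h2 | h2 <;> rw [h2] <;> split_ifs <;> omega

theorem prod_odd (T : Finset ℕ) (h : ∀ p ∈ T, Odd p) : Odd (∏ q ∈ T, q) := by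
  induction T using Finset.induction_on with
  | empty => simp
  | insert r T hr ih =>
    rw [prod_insert hr]
    exact (h r (mem_insert_self _ _)).mul (ih fun p hp => h p (mem_insert_of_mem hp))

theorem jac_prod (a : ℤ) (T : Finset ℕ) (h : ∀ p ∈ T, Odd p) :
    ∏ p ∈ T, J(a | p) = J(a | ∏ p ∈ T, p) := by
  induction T using Finset.induction_on with
  | empty => simp
  | insert r T hr ih =>
    have h1 := prod_odd T fun p hp => h p (mem_insert_of_mem hp)
    rw [prod_insert hr, prod_insert hr, ih fun p hp => h p (mem_insert_of_mem hp),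
      jacobiSym.mul_right' a (h r (mem_insert_self _ _)).pos.ne' h1.pos.ne']

theorem cop_prod {r : ℕ} {T : Finset ℕ} (hr : r.Prime) (hT : ∀ p ∈ T, p.Prime) (h : r ∉ T) :
    Nat.Coprime r (∏ p ∈ T, p) := by
  refine Nat.Coprime.prod_right fun p hp => ?_
  exact (Nat.coprime_primes hr (hT p hp)).2 fun h1 => h (h1 ▸ hp)

/-- the product of the symbols `(m / p, p)` over the primes of `m` -/
theorem rec_prod (T : Finset ℕ) (h : OP T) :
    ∏ p ∈ T, J(((∏ q ∈ T.erase p, q : ℕ) : ℤ) | p) = (-1) ^ (n3 T).choose 2 := by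
  induction T using Finset.induction_on with
  | empty => simp [n3]
  | insert r T hr ih =>
    have hT : OP T := fun p hp => h p (mem_insert_of_mem hp)
    have hr1 := h r (mem_insert_self _ _)
    have hO : ∀ p ∈ T, Odd p := fun p hp => (hT p hp).2
    have hcop := cop_prod hr1.1 (fun p hp => (hT p hp).1) hr
    have hm := prod_odd T hO
    rw [prod_insert hr, erase_insert hr]
    have e1 : ∏ p ∈ T, J(((∏ q ∈ (insert r T).erase p, q : ℕ) : ℤ) | p) =
        J((r : ℤ) | ∏ p ∈ T, p) * (-1) ^ (n3 T).choose 2 := by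
      rw [← ih hT, ← jac_prod _ T hO, ← prod_mul_distrib]
      refine prod_congr rfl fun p hp => ?_
      rw [prod_erase_insert hr hp, Nat.cast_mul, jacobiSym.mul_left]
    rw [e1, ← mul_assoc, n3_insert hr]
    have h4 := prod_mod4 T hO
    have hsq : J((r : ℤ) | ∏ p ∈ T, p) ^ 2 = 1 := jacobiSym.sq_one (by rw [Int.gcd_natCast_natCast]; exact hcop)
    rcases odd_mod hr1.2 with h2 | h2
    · rw [if_neg (by omega), add_zero, jacobiSym.quadratic_reciprocity_one_mod_four' hm h2,
        ← pow_two, hsq, one_mul]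
    · rw [if_pos h2, Nat.choose_succ_succ' (n3 T) 1, Nat.choose_one_right, pow_add]
      split_ifs at h4 with h5
      · rw [jacobiSym.quadratic_reciprocity_one_mod_four h4 hr1.2, ← pow_two, hsq, one_mul,
          Even.neg_one_pow (Nat.even_iff.2 h5), one_mul]
      · have h6 : (-1 : ℤ) ^ (n3 T) = -1 := Odd.neg_one_pow (Nat.odd_iff.2 (by omega))
        rw [jacobiSym.quadratic_reciprocity_three_mod_four h4 h2, neg_mul, ← pow_two, hsq, h6]

/-- the derivative modulo `4` -/
theorem dr_mod (T : Finset ℕ) (h : ∀ p ∈ T, Odd p) :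
    dr T % 4 = (∏ q ∈ T, q) * (n1 T + 3 * n3 T) % 4 := by
  induction T using Finset.induction_on with
  | empty => simp [dr, n1, n3]
  | insert r T hr ih =>
    have h1 := ih fun p hp => h p (mem_insert_of_mem hp)
    have h2 := odd_mod (h r (mem_insert_self _ _))
    rw [dr_insert hr, prod_insert hr, n3_insert hr, n1_insert hr]
    generalize ∏ q ∈ T, q = m at h1 ⊢
    generalize dr T = d at h1 ⊢
    generalize n1 T = a at h1 ⊢
    generalize n3 T = b at h1 ⊢
    have hd : (d : ZMod 4) = m * (a + 3 * b) := by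
      have := (ZMod.natCast_eq_natCast_iff' _ _ 4).2 h1
      simpa using this
    have h8 : (8 : ZMod 4) = 0 := by decide
    refine (ZMod.natCast_eq_natCast_iff' _ _ 4).1 ?_
    rcases h2 with h2 | h2
    · have hr4 : (r : ZMod 4) = 1 := by
        have := (ZMod.natCast_eq_natCast_iff' r 1 4).2 (by omega)
        simpa using this
      rw [if_pos h2, if_neg (by omega)]
      push_cast
      rw [hd, hr4]
      ring
    · have hr4 : (r : ZMod 4) = 3 := by
        have := (ZMod.natCast_eq_natCast_iff' r 3 4).2 (by omega)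
        simpa using this
      rw [if_neg (by omega), if_pos h2]
      push_cast
      rw [hd, hr4]
      linear_combination (-(m : ZMod 4)) * h8

end Pool.Agent.Helper83.BR
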