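import Pool.Agent.Helper83.BR.Rec

/-!
# Two sets of primes with reciprocal sums of product one: structure
-/

set_option autoImplicit false

namespace Pool.Agent.Helper83.BR

open Finset NumberTheorySymbols

/-- a solution -/
structure Sol (P Q : Finset ℕ) : Prop where
  pP : ∀ p ∈ P, p.Prime
  pQ : ∀ q ∈ Q, q.Prime
  eq : (∑ p ∈ P, 1 / (p : ℚ)) * (∑ q ∈ Q, 1 / (q : ℚ)) = 1

theorem Sol.symm {P Q : Finset ℕ} (h : Sol P Q) : Sol Q P :=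
  ⟨h.pQ, h.pP, by rw [mul_comm]; exact h.eq⟩

theorem prod_ne {S : Finset ℕ} (h : ∀ p ∈ S, p.Prime) : ∏ p ∈ S, p ≠ 0 :=
  prod_ne_zero_iff.2 fun p hp => (h p hp).ne_zero

theorem sum_eq {S : Finset ℕ} (h : ∀ p ∈ S, p.Prime) :
    ∑ p ∈ S, 1 / (p : ℚ) = dr S / (∏ p ∈ S, p : ℕ) := by
  have h0 : ((∏ p ∈ S, p : ℕ) : ℚ) ≠ 0 := by exact_mod_cast prod_ne h
  rw [eq_div_iff h0]
  unfold dr
  rw [sum_mul]
  push_cast
  refine sum_congr rfl fun p hp => ?_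
  have h1 : (p : ℚ) ≠ 0 := by exact_mod_cast (h p hp).ne_zero
  rw [← mul_prod_erase S (fun q => (q : ℚ)) hp]
  field_simp

theorem dr_erase {S : Finset ℕ} {p : ℕ} (hp : p ∈ S) :
    dr S = ∏ q ∈ S.erase p, q + p * dr (S.erase p) := by
  conv_lhs => rw [← insert_erase hp]
  rw [dr_insert (notMem_erase p S)]

theorem dr_cop {S : Finset ℕ} (h : ∀ p ∈ S, p.Prime) : Nat.Coprime (dr S) (∏ p ∈ S, p) := by
  refine Nat.Coprime.prod_right fun p hp => ?_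
  rw [Nat.coprime_comm, (h p hp).coprime_iff_not_dvd, dr_erase hp]
  intro h1
  have h2 : p ∣ ∏ q ∈ S.erase p, q := (Nat.dvd_add_left (dvd_mul_right _ _)).1 h1
  obtain ⟨q, hq, h3⟩ := (h p hp).prime.exists_mem_finset_dvd h2
  have h4 := (Nat.prime_dvd_prime_iff_eq (h p hp) (h q (mem_of_mem_erase hq))).1 h3
  exact (ne_of_mem_erase hq) h4.symm

theorem Sol.mul {P Q : Finset ℕ} (h : Sol P Q) :
    dr P * dr Q = (∏ p ∈ P, p) * ∏ q ∈ Q, q := by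
  have h1 := h.eq
  have hP : ((∏ p ∈ P, p : ℕ) : ℚ) ≠ 0 := by exact_mod_cast prod_ne h.pP
  have hQ : ((∏ p ∈ Q, p : ℕ) : ℚ) ≠ 0 := by exact_mod_cast prod_ne h.pQ
  rw [sum_eq h.pP, sum_eq h.pQ, div_mul_div_comm, div_eq_one_iff_eq (mul_ne_zero hP hQ)] at h1
  exact_mod_cast h1

theorem Sol.dP {P Q : Finset ℕ} (h : Sol P Q) : dr P = ∏ q ∈ Q, q := by
  have h1 := h.mul
  have c1 := dr_cop h.pP
  have c2 := dr_cop h.pQ
  refine Nat.dvd_antisymm (c1.dvd_of_dvd_mul_left ⟨_, h1.symm⟩) ?_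
  refine c2.symm.dvd_of_dvd_mul_right ⟨∏ p ∈ P, p, ?_⟩
  rw [h1, mul_comm]

theorem Sol.dQ {P Q : Finset ℕ} (h : Sol P Q) : dr Q = ∏ q ∈ P, q := h.symm.dP

theorem Sol.cop {P Q : Finset ℕ} (h : Sol P Q) :
    Nat.Coprime (∏ q ∈ P, q) (∏ q ∈ Q, q) := by
  rw [← h.dP]
  exact (dr_cop h.pP).symm

theorem Sol.disj {P Q : Finset ℕ} (h : Sol P Q) : Disjoint P Q := by
  rw [disjoint_left]
  intro p hp hq
  have h1 := Nat.dvd_gcd (dvd_prod_of_mem (fun q => q) hp) (dvd_prod_of_mem (fun q => q) hq)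
  have h2 : Nat.gcd (∏ q ∈ P, q) (∏ q ∈ Q, q) = 1 := h.cop
  rw [h2] at h1
  exact (h.pP p hp).one_lt.ne' (Nat.dvd_one.1 h1)

theorem Sol.pS {P Q : Finset ℕ} (h : Sol P Q) : ∀ p ∈ P ∪ Q, p.Prime := by
  intro p hp
  rcases mem_union.1 hp with h1 | h1
  exacts [h.pP p h1, h.pQ p h1]

theorem Sol.drS {P Q : Finset ℕ} (h : Sol P Q) :
    dr (P ∪ Q) = (∏ q ∈ P, q) ^ 2 + (∏ q ∈ Q, q) ^ 2 := by
  have hP : ((∏ p ∈ P, p : ℕ) : ℚ) ≠ 0 := by exact_mod_cast prod_ne h.pP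
  have hQ : ((∏ p ∈ Q, p : ℕ) : ℚ) ≠ 0 := by exact_mod_cast prod_ne h.pQ
  have h1 := sum_union (f := fun p : ℕ => 1 / (p : ℚ)) h.disj
  rw [sum_eq h.pP, sum_eq h.pQ, sum_eq h.pS, prod_union h.disj, h.dP, h.dQ] at h1
  push_cast at h1 hP hQ
  rw [div_add_div _ _ hP hQ, div_left_inj' (mul_ne_zero hP hQ)] at h1
  have h2 : ((dr (P ∪ Q) : ℕ) : ℚ) = ((∏ q ∈ P, q) ^ 2 + (∏ q ∈ Q, q) ^ 2 : ℕ) := by
    push_cast
    rw [h1]
    ring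
  exact_mod_cast h2

theorem Sol.key {P Q : Finset ℕ} (h : Sol P Q) {p : ℕ} (hp : p ∈ P) :
    ∃ x : ℕ, ∏ q ∈ (P ∪ Q).erase p, q + p * x = (∏ q ∈ Q, q) ^ 2 := by
  have hd := h.disj
  have hpQ : p ∉ Q := fun h1 => (disjoint_left.1 hd) hp h1
  refine ⟨dr (P.erase p) * ∏ q ∈ Q, q, ?_⟩
  rw [erase_union_distrib, erase_eq_of_notMem hpQ,
    prod_union (hd.mono_left (erase_subset _ _)), pow_two]
  nth_rewrite 3 [← h.dP]
  rw [dr_erase hp]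
  ring

theorem Sol.key' {P Q : Finset ℕ} (h : Sol P Q) {p : ℕ} (hp : p ∈ P ∪ Q) :
    ∃ x y : ℕ, ∏ q ∈ (P ∪ Q).erase p, q + p * x = y ^ 2 ∧ Nat.Coprime y p := by
  rcases mem_union.1 hp with h1 | h1
  · obtain ⟨x, hx⟩ := h.key h1
    exact ⟨x, _, hx, (Nat.Coprime.coprime_dvd_left (dvd_prod_of_mem (fun q => q) h1)
      h.cop).symm⟩
  · obtain ⟨x, hx⟩ := h.symm.key h1
    rw [union_comm Q P] at hx
    exact ⟨x, _, hx, (Nat.Coprime.coprime_dvd_left (dvd_prod_of_mem (fun q => q) h1)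
      h.symm.cop).symm⟩

theorem Sol.sq {P Q : Finset ℕ} (h : Sol P Q) {p : ℕ} (hp : p ∈ P ∪ Q) :
    IsSquare ((∏ q ∈ (P ∪ Q).erase p, q : ℕ) : ZMod p) := by
  obtain ⟨x, y, hx, -⟩ := h.key' hp
  refine ⟨(y : ZMod p), ?_⟩
  have h1 : ((∏ q ∈ (P ∪ Q).erase p, q + p * x : ℕ) : ZMod p) = ((y ^ 2 : ℕ) : ZMod p) := by
    rw [hx]
  rw [Nat.cast_add, Nat.cast_mul, ZMod.natCast_self, zero_mul, add_zero] at h1
  rw [h1]
  push_cast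
  ring

theorem Sol.jac {P Q : Finset ℕ} (h : Sol P Q) {p : ℕ} (hp : p ∈ P ∪ Q) :
    J(((∏ q ∈ (P ∪ Q).erase p, q : ℕ) : ℤ) | p) = 1 := by
  obtain ⟨x, y, hx, hy⟩ := h.key' hp
  have h1 : J(((∏ q ∈ (P ∪ Q).erase p, q : ℕ) : ℤ) | p) = J(((y : ℤ) ^ 2) | p) := by
    refine jacobiSym.mod_left' ?_
    have h2 : ((y : ℤ) ^ 2) = ((∏ q ∈ (P ∪ Q).erase p, q : ℕ) : ℤ) + p * x := by
      exact_mod_cast hx.symm
    rw [h2, Int.add_mul_emod_self_left]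
  rw [h1]
  exact jacobiSym.sq_one' (by rw [Int.gcd_natCast_natCast]; exact hy)

end Pool.Agent.Helper83.BR
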